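import Mathlib

open Finset Polynomial

namespace Pool.Agent.Results.MP_f3603a_co.VertexDeletion

/-- `D` (a set of arcs, `D u v` meaning `u → v`) is an orientation of the simple graph `G`:
the arcs of `D` are exactly the edges of `G`, each directed in exactly one of the two ways. -/
def IsOrientation {V : Type*} (G : SimpleGraph V) (D : V → V → Prop) : Prop :=
  (∀ u v, G.Adj u v ↔ (D u v ∨ D v u)) ∧ ∀ u v, D u v → ¬ D v u

open Classical in
/-- The number `des_D(σ)` of `D`-descents of a labelling `σ`: the number of arcs `u → v` of `D`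
with `σ u > σ v`. -/
noncomputable def des {V : Type*} [Fintype V] {α : Type*} [LinearOrder α]
    (D : V → V → Prop) (σ : V → α) : ℕ :=
  (Finset.univ.filter fun p : V × V => D p.1 p.2 ∧ σ p.2 < σ p.1).card

open Classical in
/-- The Eulerian polynomial `A_D(t) = ∑_σ t^{des_D(σ)}` of the digraph `D`, the sum being over all
bijections `σ : V → {0, ..., n - 1}`, where `n = |V|`. -/
noncomputable def eulerianPoly {V : Type*} [Fintype V] (D : V → V → Prop) : ℤ[X] :=
  ∑ σ : V ≃ Fin (Fintype.card V), X ^ des D σ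

/-- Every graph has an orientation. -/
theorem exists_isOrientation {V : Type*} (G : SimpleGraph V) :
    ∃ D : V → V → Prop, IsOrientation G D := by
  classical
  obtain ⟨r, hr⟩ : ∃ r : V → V → Prop, IsWellOrder V r := ⟨WellOrderingRel, inferInstance⟩
  refine ⟨fun u v => G.Adj u v ∧ r u v, ?_, ?_⟩
  · intro u v
    constructor
    · intro h
      rcases trichotomous_of r u v with h1 | h1 | h1
      · exact Or.inl ⟨h, h1⟩
      · exact absurd h1 h.ne
      · exact Or.inr ⟨h.symm, h1⟩
    · rintro (h | h)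
      · exact h.1
      · exact h.1.symm
  · rintro u v ⟨_, h1⟩ ⟨_, h2⟩
    exact asymm_of r h1 h2

/-- `ν(G) = |A_D(-1)|`, where `D` is an orientation of `G`. We pick some orientation; by `nu_eq`
below, `ν(G)` does not depend on which one. -/
noncomputable def nu {V : Type*} [Fintype V] (G : SimpleGraph V) : ℤ :=
  |(eulerianPoly (Classical.choose (exists_isOrientation G))).eval (-1)|

theorem sum_inst_irrel {α : Type*} (i₁ i₂ : Fintype α) (f : α → ℤ) :
    @Finset.sum α ℤ _ (@Finset.univ α i₁) f = @Finset.sum α ℤ _ (@Finset.univ α i₂) f := by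
  rw [Subsingleton.elim i₁ i₂]

section aux

variable {V : Type*} [Fintype V]

open Classical in
theorem des_cast {α : Type*} [LinearOrder α] (D : V → V → Prop) (σ : V → α) :
    ((des D σ : ℕ) : ZMod 2) = ∑ u : V, ∑ v : V, if D u v ∧ σ v < σ u then 1 else 0 := by
  unfold des
  rw [Finset.card_filter, Nat.cast_sum, Fintype.sum_prod_type]
  refine Finset.sum_congr rfl fun u _ => Finset.sum_congr rfl fun v _ => ?_
  split_ifs <;> simp

theorem neg_one_pow_eq_of_cast {a b : ℕ} (h : (a : ZMod 2) = b) :
    ((-1 : ℤ)) ^ a = (-1) ^ b := by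
  apply neg_one_pow_congr
  rw [ZMod.natCast_eq_natCast_iff'] at h
  rw [Nat.even_iff, Nat.even_iff, h]

open Classical in
theorem eval_eulerianPoly (D : V → V → Prop) :
    (eulerianPoly D).eval (-1) = ∑ σ : V ≃ Fin (Fintype.card V), (-1 : ℤ) ^ des D σ := by
  unfold eulerianPoly
  rw [eval_finsetSum]
  simp

open Classical in
/-- Kalai: two orientations of the same graph. -/
theorem des_add_des {α : Type*} [LinearOrder α] {G : SimpleGraph V} {D D' : V → V → Prop}
    (hD : IsOrientation G D) (hD' : IsOrientation G D') (σ : V → α)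
    (hσ : Function.Injective σ) :
    ((des D σ : ℕ) : ZMod 2) =
      ((des D' σ : ℕ) : ZMod 2) + ((Finset.univ.filter fun p : V × V => D p.1 p.2 ∧ D' p.2 p.1).card : ℕ) := by
  have h2 : (2 : ZMod 2) = 0 := rfl
  rw [des_cast, des_cast, Finset.card_filter, Nat.cast_sum, Fintype.sum_prod_type]
  have key : ∀ u v : V, ((if D u v ∧ σ v < σ u then 1 else 0 : ZMod 2)
      + (if D' u v ∧ σ v < σ u then 1 else 0) ) = 
      (if D u v ∧ D' v u ∧ σ v < σ u then 1 else 0) + (if D v u ∧ D' u v ∧ σ v < σ u then 1 else 0) := by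
    intro u v
    have a1 := hD.1 u v
    have a2 := hD'.1 u v
    have b1 := hD.2 u v
    have b2 := hD'.2 u v
    by_cases hs : σ v < σ u
    · by_cases c1 : D u v <;> by_cases c2 : D v u <;>
        by_cases c3 : D' u v <;> by_cases c4 : D' v u <;> simp_all
      all_goals rfl
    · simp [hs]
  have step : (∑ u : V, ∑ v : V, if D u v ∧ σ v < σ u then (1 : ZMod 2) else 0) +
      (∑ u : V, ∑ v : V, if D' u v ∧ σ v < σ u then (1 : ZMod 2) else 0) =
      ∑ u : V, ∑ v : V, (((if D u v ∧ D' v u then 1 else 0 : ℕ)) : ZMod 2) := by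
    rw [← Finset.sum_add_distrib]
    simp_rw [← Finset.sum_add_distrib, key]
    simp_rw [Finset.sum_add_distrib]
    rw [Finset.sum_comm (f := fun u v => if D v u ∧ D' u v ∧ σ v < σ u then (1 : ZMod 2) else 0)]
    rw [← Finset.sum_add_distrib]
    simp_rw [← Finset.sum_add_distrib]
    refine Finset.sum_congr rfl fun u _ => Finset.sum_congr rfl fun v _ => ?_
    by_cases huv : D u v ∧ D' v u
    · have hne : u ≠ v := by
        rintro rfl
        exact hD.2 _ _ huv.1 huv.1
      rcases lt_or_gt_of_ne (fun h => hne (hσ h)) with h | h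
      · have h' := not_lt_of_gt h
        simp [huv, h, h']
      · have h' := not_lt_of_gt h
        simp [huv, h, h']
    · have h1 : ¬ (D u v ∧ D' v u ∧ σ v < σ u) := fun h => huv ⟨h.1, h.2.1⟩
      have h3 : ¬ (D u v ∧ D' v u ∧ σ u < σ v) := fun h => huv ⟨h.1, h.2.1⟩
      simp [huv, h1, h3]
  rw [← step]
  ring_nf
  simp [h2]

open Classical in
theorem abs_eval_eq {G : SimpleGraph V} {D D' : V → V → Prop}
    (hD : IsOrientation G D) (hD' : IsOrientation G D') :
    |(eulerianPoly D).eval (-1)| = |(eulerianPoly D').eval (-1)| := by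
  rw [eval_eulerianPoly, eval_eulerianPoly]
  set c := (Finset.univ.filter fun p : V × V => D p.1 p.2 ∧ D' p.2 p.1).card
  have h : ∀ σ : V ≃ Fin (Fintype.card V), (-1 : ℤ) ^ des D σ = (-1) ^ c * (-1) ^ des D' σ := by
    intro σ
    rw [← pow_add]
    apply neg_one_pow_eq_of_cast
    rw [des_add_des hD hD' σ σ.injective, add_comm, Nat.cast_add]
  simp_rw [h]
  rw [← Finset.mul_sum, abs_mul, abs_pow, abs_neg, abs_one, one_pow, one_mul]

/-- `ν` is well defined (Kalai). -/
theorem nu_eq {G : SimpleGraph V} {D : V → V → Prop} (hD : IsOrientation G D) :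
    nu G = |(eulerianPoly D).eval (-1)| :=
  abs_eval_eq (Classical.choose_spec (exists_isOrientation G)) hD

open Classical in
/-- Rotating the labels cyclically does not change the parity of the number of descents. -/
theorem des_rotate {n : ℕ} {G : SimpleGraph V} [DecidableRel G.Adj] {D : V → V → Prop}
    (hD : IsOrientation G D) (hG : ∀ v, Even (G.degree v)) (σ : V ≃ Fin (n + 1)) :
    ((des D (σ.trans (finRotate (n + 1))) : ℕ) : ZMod 2) = ((des D σ : ℕ) : ZMod 2) := by
  have h2 : (2 : ZMod 2) = 0 := rfl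
  set v := σ.symm (Fin.last n) with hv
  have hσv : σ v = Fin.last n := by simp [hv]
  have key : ∀ u w : V,
      ((if D u w ∧ (σ.trans (finRotate (n + 1))) w < (σ.trans (finRotate (n + 1))) u
          then 1 else 0 : ZMod 2)) =
      (if D u w ∧ σ w < σ u then 1 else 0) + (if u = v ∧ D u w then 1 else 0)
        + (if w = v ∧ D u w then 1 else 0) := by
    intro u w
    by_cases hd : D u w
    · have hne : u ≠ w := by
        rintro rfl
        exact hD.2 _ _ hd hd
      simp only [hd, true_and, and_true, Equiv.trans_apply]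
      by_cases hu : u = v
      · have hw : w ≠ v := fun h => hne (hu.trans h.symm)
        have hσw : σ w ≠ Fin.last n := fun h => hw (σ.injective (h.trans hσv.symm))
        have h1 : ¬ finRotate (n + 1) (σ w) < finRotate (n + 1) (σ u) := by
          rw [hu, hσv, finRotate_last]
          exact Fin.not_lt_zero _
        have h3 : σ w < σ u := by
          rw [hu, hσv]
          exact Fin.lt_last_iff_ne_last.mpr hσw
        rw [if_neg h1, if_pos h3, if_pos hu, if_neg hw]
        rfl
      · have hσu : σ u ≠ Fin.last n := fun h => hu (σ.injective (h.trans hσv.symm))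
        by_cases hw : w = v
        · have h1 : finRotate (n + 1) (σ w) < finRotate (n + 1) (σ u) := by
            rw [hw, hσv, finRotate_last, Fin.lt_def, coe_finRotate_of_ne_last hσu]
            simp
          have h3 : ¬ σ w < σ u := by
            rw [hw, hσv]
            exact not_lt_of_ge (Fin.le_last _)
          rw [if_pos h1, if_neg h3, if_neg hu, if_pos hw]
          rfl
        · have hσw : σ w ≠ Fin.last n := fun h => hw (σ.injective (h.trans hσv.symm))
          have h1 : finRotate (n + 1) (σ w) < finRotate (n + 1) (σ u) ↔ σ w < σ u := by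
            rw [Fin.lt_def, coe_finRotate_of_ne_last hσu, coe_finRotate_of_ne_last hσw, Fin.lt_def]
            omega
          rw [if_neg hu, if_neg hw]
          simp only [h1, add_zero]
    · simp [hd]
  rw [des_cast, des_cast]
  simp_rw [key, Finset.sum_add_distrib]
  have e1 : (∑ u : V, ∑ w : V, if u = v ∧ D u w then (1 : ZMod 2) else 0)
      = ∑ w : V, if D v w then (1 : ZMod 2) else 0 := by
    rw [Finset.sum_eq_single v]
    · simp
    · intro b _ hb
      simp [hb]
    · simp
  have e2 : (∑ u : V, ∑ w : V, if w = v ∧ D u w then (1 : ZMod 2) else 0)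
      = ∑ u : V, if D u v then (1 : ZMod 2) else 0 := by
    refine Finset.sum_congr rfl fun u _ => ?_
    rw [Finset.sum_eq_single v]
    · simp
    · intro b _ hb
      simp [hb]
    · simp
  have e3 : (∑ w : V, if D v w then (1 : ZMod 2) else 0) + (∑ u : V, if D u v then (1 : ZMod 2) else 0)
      = (G.degree v : ZMod 2) := by
    rw [← Finset.sum_add_distrib, ← SimpleGraph.card_neighborFinset_eq_degree,
      SimpleGraph.neighborFinset_eq_filter, Finset.card_filter, Nat.cast_sum]
    refine Finset.sum_congr rfl fun w _ => ?_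
    have a1 := hD.1 v w
    have b1 := hD.2 v w
    by_cases c1 : D v w <;> by_cases c2 : D w v <;> simp_all
  have e4 : (G.degree v : ZMod 2) = 0 := by
    rw [ZMod.natCast_eq_zero_iff_even]
    exact hG v
  rw [e1, e2, add_assoc, e3, e4, add_zero]

/-- Extend a labelling of `V ∖ {v₀}` to a labelling of `V` by giving `v₀` the largest label. -/
noncomputable def extendLast [DecidableEq V] {n : ℕ} (v₀ : V)
    (τ : ({v₀}ᶜ : Set V) ≃ Fin n) : V ≃ Fin (n + 1) where
  toFun x := if h : x = v₀ then Fin.last n else (τ ⟨x, h⟩).castSucc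
  invFun k := Fin.lastCases (motive := fun _ => V) v₀ (fun i => (τ.symm i).1) k
  left_inv := by
    intro x
    by_cases h : x = v₀
    · simp [h]
    · simp [h]
  right_inv := by
    intro k
    refine Fin.lastCases ?_ (fun i => ?_) k
    · simp
    · have h : ((τ.symm i).1 : V) ≠ v₀ := (τ.symm i).2
      simp [h]

/-- Restrict a labelling of `V` giving `v₀` the largest label. -/
noncomputable def restrictLast {n : ℕ} (v₀ : V) (σ : V ≃ Fin (n + 1))
    (hσ : σ v₀ = Fin.last n) : ({v₀}ᶜ : Set V) ≃ Fin n where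
  toFun x := (σ x.1).castPred (fun h => x.2 (σ.injective (h.trans hσ.symm)))
  invFun i := ⟨σ.symm i.castSucc, fun h => by
    have h' : σ.symm i.castSucc = v₀ := h
    rw [Equiv.symm_apply_eq, hσ] at h'
    exact absurd h' (Fin.castSucc_lt_last i).ne⟩
  left_inv := by
    intro x
    ext
    simp
  right_inv := by
    intro i
    simp

omit [Fintype V] in
theorem extendLast_restrictLast [DecidableEq V] {n : ℕ} (v₀ : V) (σ : V ≃ Fin (n + 1))
    (hσ : σ v₀ = Fin.last n) : extendLast v₀ (restrictLast v₀ σ hσ) = σ := by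
  ext x
  by_cases h : x = v₀
  · subst h
    simp [extendLast, hσ]
  · simp [extendLast, h, restrictLast]

omit [Fintype V] in
theorem extendLast_injective [DecidableEq V] {n : ℕ} (v₀ : V) :
    Function.Injective (extendLast (n := n) v₀) := by
  intro τ τ' h
  ext x
  have hx : (x : V) ≠ v₀ := x.2
  have := DFunLike.congr_fun h (x : V)
  simp only [extendLast, Equiv.coe_fn_mk, hx, dite_false] at this
  have h3 := Fin.castSucc_injective _ this
  exact congrArg Fin.val h3

open Classical in
theorem des_extendLast {n : ℕ} (v₀ : V) (D : V → V → Prop) (hD : ∀ u, ¬ D u u)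
    (τ : ({v₀}ᶜ : Set V) ≃ Fin n) :
    ((des D (extendLast v₀ τ) : ℕ) : ZMod 2) =
      (((Finset.univ.filter fun w => D v₀ w).card +
        des (fun u w : ({v₀}ᶜ : Set V) => D u w) τ : ℕ) : ZMod 2) := by
  have hv : extendLast v₀ τ v₀ = Fin.last n := by simp [extendLast]
  have hx : ∀ x : {x // x ≠ v₀}, extendLast v₀ τ x = (τ ⟨x.1, x.2⟩).castSucc := by
    intro x
    have := x.2
    simp [extendLast, this]
  rw [des_cast, Nat.cast_add, des_cast, Fintype.sum_eq_add_sum_subtype_ne _ v₀]
  congr 1
  · rw [Finset.card_filter, Nat.cast_sum]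
    refine Finset.sum_congr rfl fun w _ => ?_
    by_cases hw : w = v₀
    · subst hw
      simp [hD]
    · have h1 : extendLast v₀ τ w < extendLast v₀ τ v₀ := by
        rw [hv, hx ⟨w, hw⟩]
        exact Fin.castSucc_lt_last _
      simp [h1]
  · refine Fintype.sum_equiv (Equiv.refl _) _ _ fun u => ?_
    rw [Fintype.sum_eq_add_sum_subtype_ne _ v₀]
    have h1 : ¬ extendLast v₀ τ v₀ < extendLast v₀ τ u := by
      rw [hv]
      exact not_lt_of_ge (Fin.le_last _)
    simp only [h1, and_false, if_false, zero_add]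
    refine Fintype.sum_equiv (Equiv.refl _) _ _ fun w => ?_
    rw [hx u, hx w]
    simp only [Fin.castSucc_lt_castSucc_iff]
    rfl

open Classical in
theorem eval_eulerianPoly' (D : V → V → Prop) {m : ℕ} (hm : Fintype.card V = m) :
    (eulerianPoly D).eval (-1) = ∑ σ : V ≃ Fin m, (-1 : ℤ) ^ des D σ := by
  subst hm
  exact eval_eulerianPoly D

open Classical in
/-- The key identity: `|A_D(-1)| = n * |A_{D - v₀}(-1)|` for every vertex `v₀` if all degrees are
even. -/
theorem abs_eval_eq_mul {G : SimpleGraph V} {D : V → V → Prop}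
    (hD : IsOrientation G D) (hG : ∀ v, Even (G.degree v)) (v₀ : V) :
    |(eulerianPoly D).eval (-1)| = (Fintype.card V : ℤ) *
      |(eulerianPoly (fun u w : ({v₀}ᶜ : Set V) => D u w)).eval (-1)| := by
  obtain ⟨n, hn⟩ : ∃ n, Fintype.card V = n + 1 :=
    ⟨Fintype.card V - 1, (Nat.succ_pred_eq_of_pos (Fintype.card_pos_iff.mpr ⟨v₀⟩)).symm⟩
  have hn' : Fintype.card ({v₀}ᶜ : Set V) = n := by
    rw [Fintype.card_compl_set]
    simp [hn]
  rw [eval_eulerianPoly' D hn, eval_eulerianPoly' _ hn', hn]
  set f : (V ≃ Fin (n + 1)) → ℤ := fun σ => (-1 : ℤ) ^ des D σ with hf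
  have hrot : ∀ σ : V ≃ Fin (n + 1), f (σ.trans (finRotate (n + 1))) = f σ := fun σ =>
    neg_one_pow_eq_of_cast (des_rotate hD hG σ)
  set S : Fin (n + 1) → ℤ := fun k => ∑ σ : V ≃ Fin (n + 1), if σ v₀ = k then f σ else 0 with hS
  have hS1 : ∀ k, S (finRotate (n + 1) k) = S k := by
    intro k
    simp only [hS]
    refine (Fintype.sum_bijective (fun σ : V ≃ Fin (n + 1) => σ.trans (finRotate (n + 1)))
      ?_ _ _ fun σ => ?_).symm
    · refine ⟨fun σ σ' h => ?_, fun σ => ⟨σ.trans (finRotate (n + 1)).symm, ?_⟩⟩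
      · ext x
        have := DFunLike.congr_fun h x
        simp only [Equiv.trans_apply] at this
        exact congrArg Fin.val ((finRotate (n + 1)).injective this)
      · ext x
        simp
    · rw [hrot, Equiv.trans_apply]
      simp only [(finRotate (n + 1)).injective.eq_iff]
  have hS2 : ∀ k, S k = S 0 := by
    intro k
    induction k using Fin.induction with
    | zero => rfl
    | succ i ih =>
      rw [← ih, ← hS1 i.castSucc]
      congr 1
      rw [finRotate_apply]
      simp
  have hsum : ∑ σ : V ≃ Fin (n + 1), f σ = ∑ k, S k := by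
    simp only [hS]
    rw [Finset.sum_comm]
    refine Finset.sum_congr rfl fun σ _ => ?_
    simp
  have hlast : S (Fin.last n) = (-1) ^ (Finset.univ.filter fun w => D v₀ w).card *
      ∑ τ : ({v₀}ᶜ : Set V) ≃ Fin n, (-1 : ℤ) ^ des (fun u w : ({v₀}ᶜ : Set V) => D u w) τ := by
    simp only [hS]
    rw [← Finset.sum_filter, Finset.mul_sum]
    symm
    refine Finset.sum_nbij (fun τ => extendLast v₀ τ) ?_ ?_ ?_ ?_
    · intro τ _
      simp [extendLast]
    · exact (extendLast_injective v₀).injOn
    · intro σ hσ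
      have hσ' : σ v₀ = Fin.last n := by simpa using hσ
      exact ⟨restrictLast v₀ σ hσ', by simp, extendLast_restrictLast v₀ σ hσ'⟩
    · intro τ _
      rw [← pow_add]
      simp only [hf]
      exact (neg_one_pow_eq_of_cast (des_extendLast v₀ D (fun u h => hD.2 u u h h) τ)).symm
  have htot : ∑ σ : V ≃ Fin (n + 1), f σ = ((n + 1 : ℕ) : ℤ) * S (Fin.last n) := by
    rw [hsum, Finset.sum_congr rfl fun k _ => (hS2 k).trans (hS2 (Fin.last n)).symm]
    simp
  change |∑ σ : V ≃ Fin (n + 1), f σ| = _
  rw [htot, hlast, abs_mul, abs_mul, abs_pow, abs_neg, abs_one, one_pow, one_mul, Nat.abs_cast]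
  exact congrArg (fun x : ℤ => ((n + 1 : ℕ) : ℤ) * |x|)
    (sum_inst_irrel _ _ _)

open Classical in
/-- Strong form: if all degrees of `G` are even then `ν(G) = |V| * ν(G - v)` for every vertex. -/
theorem nu_eq_card_mul (G : SimpleGraph V) (hG : ∀ v, Even (G.degree v)) (v : V) :
    nu G = (Fintype.card V : ℤ) * nu (G.induce ({v}ᶜ : Set V)) := by
  obtain ⟨D, hD⟩ := exists_isOrientation G
  have hD' : IsOrientation (G.induce ({v}ᶜ : Set V)) (fun u w : ({v}ᶜ : Set V) => D u w) :=
    ⟨fun u w => by simpa using hD.1 u w, fun u w h => hD.2 _ _ h⟩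
  rw [nu_eq hD, nu_eq hD', abs_eval_eq_mul hD hG v]

omit [Fintype V] in
theorem degree_inst_irrel (G : SimpleGraph V) (v : V) (i₁ i₂ : Fintype (G.neighborSet v)) :
    @SimpleGraph.degree V G v i₁ = @SimpleGraph.degree V G v i₂ := by
  rw [Subsingleton.elim i₁ i₂]

end aux

theorem nu_inst_irrel {V : Type*} (i₁ i₂ : Fintype V) (G : SimpleGraph V) :
    @nu V i₁ G = @nu V i₂ G := by
  rw [Subsingleton.elim i₁ i₂]

/-- **Vertex-deletion identity for `ν` on Eulerian graphs.** For every finite simple graph `G` with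
at least one vertex, all of whose degrees are even, `ν(G) = ∑_v ν(G - v)`. -/
theorem result {V : Type*} [Fintype V] [DecidableEq V] [Nonempty V] (G : SimpleGraph V)
    [DecidableRel G.Adj] (hG : ∀ v, Even (G.degree v)) :
    nu G = ∑ v : V, nu (G.induce ({v}ᶜ : Set V)) := by
  have hn : (Fintype.card V : ℤ) ≠ 0 := by
    exact_mod_cast Fintype.card_ne_zero
  apply mul_left_cancel₀ hn
  rw [Finset.mul_sum]
  have h : ∀ v : V, (Fintype.card V : ℤ) * nu (G.induce ({v}ᶜ : Set V)) = nu G := by
    intro v
    rw [nu_eq_card_mul G (fun w => by rw [degree_inst_irrel G w _ _]; exact hG w) v]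
    rw [nu_inst_irrel]
  rw [Finset.sum_congr rfl fun v _ => h v]
  simp

end Pool.Agent.Results.MP_f3603a_co.VertexDeletion
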